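import Pool.Agent.T9h16.Arith
import Pool.Agent.T9h16.UnnegEmb
import Pool.Agent.T9h34.BlockHard
import Pool.Agent.T9h34.EdgeInputs

/-!
# The non-monotone gates of every circuit for the clique problem change their inputs often

A circuit is a straight-line program with AND gates and OR gates of fan-in two and any number of
further gates, each computing an arbitrary Boolean function of the values it reads (NOT gates, but
also parity or threshold gates of unbounded fan-in).  There is no restriction on the circuit.  Let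
`P` be any set of edge variables.  The circuit reads the edge variables and, for free, arbitrary
functions `h j` of the graph which do not depend on the variables in `P`.

Suppose that the circuit decides whether a graph on `n` vertices has a clique with `k` vertices,
where `k ≥ K * L ^ 5`, `L = log₂ (n + number of gates + number of values read by the further gates)
+ 1`.  Then there is a chain of graphs `G 0 ≤ G 1 ≤ ... ≤ G m`, all without a clique of `k`
vertices and all equal outside of `P`, such that the values read by the further gates change in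
every step of the chain, and `|P| * (n - k) ^ 2 ≤ K * L ^ 15 * (m + 1) * n ^ 2`.

No chain has more than `|P|` strict steps.  The proof fills, one after the other, disjoint blocks of
variables (the embedding `Pool.Agent.T9h16.unneg_emb`) by negative inputs of a block function which
is hard for monotone circuits; as long as the values read do not change, a small monotone circuit
would compute the block function.
-/

set_option autoImplicit false

namespace Pool.Agent.Results.MP_0a1b52_lc.NegationAlternation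

open Pool.Agent.T9h16 Pool.Agent.T9h34

theorem result : ∃ K : ℕ, ∀ (n k : ℕ) (P : Finset (Pair n)) (κ : Type)
    (h : κ → SimpleGraph (Fin n) → Bool) (C : Circuit (Pair n ⊕ κ)), k ≤ n →
    (∀ (j : κ) (G G' : SimpleGraph (Fin n)),
      (∀ e ∉ P, (G.Adj e.1.1 e.1.2 ↔ G'.Adj e.1.1 e.1.2)) → h j G = h j G') →
    (∀ G : SimpleGraph (Fin n), C.eval (inputs h G) = true ↔ ¬ G.CliqueFree k) →
    K * (Nat.log 2 (n + C.size + C.numReads) + 1) ^ 5 ≤ k →
      ∃ (m : ℕ) (G : ℕ → SimpleGraph (Fin n)), Monotone G ∧ (∀ i, (G i).CliqueFree k) ∧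
        (∀ i, ∀ e ∉ P, ((G i).Adj e.1.1 e.1.2 ↔ (G 0).Adj e.1.1 e.1.2)) ∧
        (∀ i < m, C.reads (inputs h (G i)) ≠ C.reads (inputs h (G (i + 1)))) ∧
        P.card * (n - k) ^ 2 ≤
          K * (Nat.log 2 (n + C.size + C.numReads) + 1) ^ 15 * (m + 1) * n ^ 2 := by
  classical
  refine ⟨2 ^ 50, ?_⟩
  intro n k P κ h C hkn hindep hC hk
  set S := n + C.size + C.numReads with hS
  set L := Nat.log 2 S + 1 with hL
  have hL1 : 1 ≤ L := by omega
  have hSL : S < 2 ^ L := Nat.lt_pow_succ_log_self (by norm_num) S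
  set r := L + 1 with hr
  have hr2 : 2 ≤ r := by omega
  have hSr : S + 1 ≤ 2 ^ r := by
    rw [hr, pow_succ]
    omega
  have hnr : n ≤ 2 ^ r := by omega
  have hrL : r ≤ 2 * L := by omega
  have hr2' : 4 ≤ r ^ 2 := by nlinarith
  have hGG : 16 ≤ GG r := by
    rw [GG]
    calc 16 = 4 * 4 * 1 := rfl
      _ ≤ 4 * r ^ 2 * LL r := Nat.mul_le_mul (Nat.mul_le_mul_left _ hr2') (one_le_LL r)
  have hPn : P.card ≤ n ^ 2 := by
    calc P.card ≤ Fintype.card (Pair n) := Finset.card_le_univ P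
      _ ≤ Fintype.card (Fin n × Fin n) := Fintype.card_subtype_le _
      _ = n ^ 2 := by rw [Fintype.card_prod, Fintype.card_fin, sq]
  have hA : 2 * (GG r * GG r) ≤ k := by
    have h1 : 2 * (GG r * GG r) ≤ 2 ^ 16 * r ^ 5 := by
      calc 2 * (GG r * GG r) = 2 ^ 5 * r ^ 4 * LL r ^ 2 := by rw [GG]; ring
        _ ≤ 2 ^ 5 * r ^ 4 * (2 ^ 11 * r) := Nat.mul_le_mul_left _ (LL_sq r (by omega))
        _ = 2 ^ 16 * r ^ 5 := by ring
    have h3 : r ^ 5 ≤ (2 * L) ^ 5 := Nat.pow_le_pow_left hrL 5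
    calc 2 * (GG r * GG r) ≤ 2 ^ 16 * r ^ 5 := h1
      _ ≤ 2 ^ 16 * (2 * L) ^ 5 := Nat.mul_le_mul_left _ h3
      _ = 2 ^ 21 * L ^ 5 := by ring
      _ ≤ 2 ^ 50 * L ^ 5 := Nat.mul_le_mul_right _ (by norm_num)
      _ ≤ k := hk
  have hn2 : 2 ≤ n := by
    have : 16 * 16 ≤ GG r * GG r := Nat.mul_le_mul hGG hGG
    omega
  have hk2 : 2 ≤ k := by
    have : 16 * 16 ≤ GG r * GG r := Nat.mul_le_mul hGG hGG
    omega
  set b₀ : ℕ := (GG r * (2 * r)) ^ 2 with hb₀
  have hb₀2 : b₀ ^ 2 ≤ 2 ^ 23 * r ^ 13 := by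
    have h5 : b₀ ^ 2 = 2 ^ 12 * r ^ 12 * LL r ^ 4 := by rw [hb₀, GG]; ring
    rw [h5]
    calc 2 ^ 12 * r ^ 12 * LL r ^ 4 ≤ 2 ^ 12 * r ^ 12 * (2 ^ 11 * r) :=
          Nat.mul_le_mul_left _ (LL_pow_four r (by omega))
      _ = 2 ^ 23 * r ^ 13 := by ring
  have hb₀1 : b₀ ≤ 2 ^ 17 * r ^ 7 := by
    have h5 : b₀ = 64 * r ^ 6 * LL r ^ 2 := by rw [hb₀, GG]; ring
    rw [h5]
    calc 64 * r ^ 6 * LL r ^ 2 ≤ 64 * r ^ 6 * (2 ^ 11 * r) :=
          Nat.mul_le_mul_left _ (LL_sq r (by omega))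
      _ = 2 ^ 17 * r ^ 7 := by ring
  have hℓ : 4 * b₀ ≤ 2 ^ (17 * r) := by
    have h1 : r ≤ 2 ^ r := (Nat.lt_two_pow_self).le
    calc 4 * b₀ ≤ 4 * (2 ^ 17 * r ^ 7) := Nat.mul_le_mul_left _ hb₀1
      _ ≤ 4 * (2 ^ 17 * (2 ^ r) ^ 7) :=
          Nat.mul_le_mul_left _ (Nat.mul_le_mul_left _ (Nat.pow_le_pow_left h1 7))
      _ = 2 ^ (19 + 7 * r) := by
          rw [← pow_mul, mul_comm r 7, pow_add, show (2 : ℕ) ^ 19 = 4 * 2 ^ 17 by norm_num,
            mul_assoc]
      _ ≤ 2 ^ (17 * r) := Nat.pow_le_pow_right (by norm_num) (by omega)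
  have hb₀pos : 0 < b₀ := by
    have : 0 < GG r * (2 * r) := Nat.mul_pos (by omega) (by omega)
    exact pow_pos this 2
  set B : ℕ := 32 * (r + 1) * b₀ ^ 2 * (17 * r) * (n * (n - 1)) with hB
  have hBpos : 0 < B := by
    have h1 : 0 < n * (n - 1) := Nat.mul_pos (by omega) (by omega)
    have h2 : 0 < 17 * r := by omega
    have h3 : 0 < 32 * (r + 1) := by omega
    exact Nat.mul_pos (Nat.mul_pos (Nat.mul_pos h3 (pow_pos hb₀pos 2)) h2) h1
  set Q : ℕ := P.card * ((n - k) * (n - k - 1)) with hQ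
  obtain ⟨ι, i1, hι, G, hmono, hleaf, hcl⟩ := unneg_emb n k r (GG r) (2 * r) (17 * r) (Q / B)
    P (by omega) (by omega) hA hkn hnr (by omega) hℓ (by
      calc 32 * (r + 1) * b₀ ^ 2 * (17 * r) * (Q / B) * (n * (n - 1)) = B * (Q / B) := by
            rw [hB]; ring
        _ ≤ Q := Nat.mul_div_le Q B) hn2
  have hleaf' : ∀ e : Pair n, (∃ q : Prop, ∀ y, (G y).Adj e.1.1 e.1.2 ↔ q) ∨
        ((∃ i b, ∀ y, (G y).Adj e.1.1 e.1.2 ↔ b ∈ y i) ∧ e ∈ P) := by
    intro e
    rcases hleaf e.1.1 e.1.2 with h1 | ⟨h1, p, hp, h2 | h2⟩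
    · exact Or.inl h1
    · have : p = e := Subtype.ext h2
      exact Or.inr ⟨h1, this ▸ hp⟩
    · exfalso
      have h3 := p.2
      have h4 := e.2
      rw [h2] at h3
      exact lt_asymm h3 h4
  have hconst : ∀ y y' : ι → Set (BE (GG r) (2 * r)), ∀ e : Pair n, e ∉ P →
        ((G y).Adj e.1.1 e.1.2 ↔ (G y').Adj e.1.1 e.1.2) := by
    intro y y' e he
    rcases hleaf' e with ⟨q, hq⟩ | ⟨-, h1⟩
    · rw [hq, hq]
    · exact (he h1).elim
  have hfree : ∀ G : SimpleGraph (Fin n), ¬ G.CliqueFree k ↔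
      ∃ c : Finset (Fin n), G.IsClique (c : Set (Fin n)) ∧ k ≤ c.card := by
    intro G
    constructor
    · intro hG
      unfold SimpleGraph.CliqueFree at hG
      push Not at hG
      obtain ⟨c, hc⟩ := hG
      exact ⟨c, hc.isClique, hc.card_eq.ge⟩
    · rintro ⟨c, hc, hck⟩ hG
      obtain ⟨d, hdc, hd⟩ := Finset.exists_subset_card_eq hck
      exact hG d ⟨hc.subset (by exact_mod_cast hdc), hd⟩
  obtain ⟨Y, hY1, hY2, hY3⟩ := exists_chain r hr2 C (by omega) (fun y => inputs h (G y))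
    (by
      intro y y' hyy a
      rcases a with e | j
      · simp only [inputs, decide_eq_true_eq]
        exact fun hadj => hmono y y' hyy hadj
      · simp only [inputs]
        rw [hindep j (G y) (G y') (hconst y y')]
        exact id)
    (by
      intro a
      rcases a with e | j
      · rcases hleaf' e with ⟨q, hq⟩ | ⟨⟨i, b, hib⟩, -⟩
        · left
          refine ⟨decide q, fun y => ?_⟩
          simp only [inputs]
          rw [decide_eq_decide]
          exact hq y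
        · right
          refine ⟨i, b, fun y => ?_⟩
          simp only [inputs, decide_eq_true_eq]
          exact hib y
      · left
        exact ⟨h j (G fun _ => ∅), fun y => hindep j _ _ (hconst _ _)⟩)
    (by
      intro y
      rw [hC, hfree, ← hcl y])
  refine ⟨Q / B, fun i => G (Y i), ?_, ?_, ?_, ?_, ?_⟩
  · exact monotone_nat_of_le_succ fun i => hmono _ _ (hY1 i)
  · intro i
    by_contra hcon
    obtain ⟨j, hj⟩ := (hcl (Y i)).1 ((hfree (G (Y i))).1 hcon)
    exact hY2 i j hj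
  · intro i e he
    exact hconst _ _ e he
  · intro i hi
    exact hY3 i (lt_of_lt_of_le hi hι)
  · have hQB : Q ≤ B * (Q / B + 1) := (Nat.lt_mul_div_succ Q hBpos).le
    have hBle : B ≤ (17 * 2 ^ 29) * r ^ 15 * n ^ 2 := by
      calc B = 32 * (r + 1) * b₀ ^ 2 * (17 * r) * (n * (n - 1)) := rfl
        _ ≤ 32 * (2 * r) * (2 ^ 23 * r ^ 13) * (17 * r) * (n * n) := by
            apply Nat.mul_le_mul _ (Nat.mul_le_mul_left _ (Nat.sub_le _ _))
            apply Nat.mul_le_mul_right
            exact Nat.mul_le_mul (Nat.mul_le_mul_left _ (by omega)) hb₀2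
        _ = (17 * 2 ^ 29) * r ^ 15 * n ^ 2 := by ring
    have hr15 : r ^ 15 ≤ 2 ^ 15 * L ^ 15 := by
      calc r ^ 15 ≤ (2 * L) ^ 15 := Nat.pow_le_pow_left hrL 15
        _ = 2 ^ 15 * L ^ 15 := by ring
    have hL15 : 1 ≤ L ^ 15 := Nat.one_le_pow _ _ (by omega)
    rcases lt_or_ge (n - k) 2 with h1 | h1
    · have h2 : (n - k) ^ 2 ≤ 1 := by
        have : n - k ≤ 1 := by omega
        exact Nat.pow_le_one_iff (by norm_num) |>.2 this
      calc P.card * (n - k) ^ 2 ≤ n ^ 2 * 1 := Nat.mul_le_mul hPn h2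
        _ = 1 * 1 * 1 * n ^ 2 := by ring
        _ ≤ 2 ^ 50 * L ^ 15 * (Q / B + 1) * n ^ 2 := by
            apply Nat.mul_le_mul_right
            exact Nat.mul_le_mul (Nat.mul_le_mul (by norm_num) hL15) (Nat.le_add_left 1 _)
    · have h2 : (n - k) ^ 2 ≤ 2 * ((n - k) * (n - k - 1)) := by
        obtain ⟨m, hm⟩ : ∃ m, n - k = m + 2 := ⟨n - k - 2, by omega⟩
        rw [hm]
        have : m + 2 - 1 = m + 1 := rfl
        rw [this]
        nlinarith
      calc P.card * (n - k) ^ 2 ≤ P.card * (2 * ((n - k) * (n - k - 1))) :=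
            Nat.mul_le_mul_left _ h2
        _ = 2 * Q := by rw [hQ]; ring
        _ ≤ 2 * (B * (Q / B + 1)) := Nat.mul_le_mul_left _ hQB
        _ ≤ 2 * (((17 * 2 ^ 29) * r ^ 15 * n ^ 2) * (Q / B + 1)) :=
            Nat.mul_le_mul_left _ (Nat.mul_le_mul_right _ hBle)
        _ = (17 * 2 ^ 30) * r ^ 15 * ((Q / B + 1) * n ^ 2) := by ring
        _ ≤ 2 ^ 35 * (2 ^ 15 * L ^ 15) * ((Q / B + 1) * n ^ 2) := by
            apply Nat.mul_le_mul_right
            exact Nat.mul_le_mul (by norm_num) hr15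
        _ = 2 ^ 50 * L ^ 15 * (Q / B + 1) * n ^ 2 := by ring

end Pool.Agent.Results.MP_0a1b52_lc.NegationAlternation
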